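import Mathlib

/-!
# Multiplicative Lagrange spectra are countable near `0`

For every nonzero polynomial `P` with integer coefficients and every `k`, the multiplicative
Lagrange spectrum of order `k` of `P` has only countably many points below `1 / L(P ^ (k + 1))`, where
`L` is the sum of the absolute values of the coefficients. So it is never `[0, 1/2]`.
-/

open Polynomial Filter

namespace Pool.Agent.Results.MP_6c75e4_nt.NeverFullInterval

/-- the distance to the nearest integer -/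
noncomputable def dist1 (x : ℝ) : ℝ := |x - round x|

open Classical in
/-- the expanding roots of `P`: the complex roots of modulus `> 1` -/
noncomputable def expanding (P : ℤ[X]) : Finset ℂ :=
  (P.aroots ℂ).toFinset.filter fun α => 1 < ‖α‖

/-- the tuples `(g_α)`, `α` an expanding root: complex polynomials of degree `≤ k` such that the
polynomial of the conjugate root is obtained by conjugating the coefficients (so `g_α` has real
coefficients if `α` is real) -/
def IsTuple (P : ℤ[X]) (k : ℕ) (g : ℂ → ℂ[X]) : Prop :=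
  ∀ α ∈ expanding P, (g α).natDegree ≤ k ∧
    g (starRingEnd ℂ α) = (g α).map (starRingEnd ℂ)

/-- `∑ g_α(n) α ^ n`, the sum over the expanding roots (it is real for the above tuples, see
`sum_im`) -/
noncomputable def sum (P : ℤ[X]) (g : ℂ → ℂ[X]) (n : ℕ) : ℂ :=
  ∑ α ∈ expanding P, (g α).eval (n : ℂ) * α ^ n

/-- the real sequence `x_n(g)` -/
noncomputable def seq (P : ℤ[X]) (g : ℂ → ℂ[X]) (n : ℕ) : ℝ := (sum P g n).re

/-- the multiplicative Lagrange spectrum of order `k` of `P` -/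
noncomputable def lagrange (P : ℤ[X]) (k : ℕ) : Set ℝ :=
  {v | ∃ g : ℂ → ℂ[X], IsTuple P k g ∧ v = limsup (fun n : ℕ => dist1 (seq P g n)) atTop}

/-- the sum of the absolute values of the coefficients -/
noncomputable def len (Q : ℤ[X]) : ℝ := ∑ j ∈ Q.support, |(Q.coeff j : ℝ)|

theorem mem_expanding {P : ℤ[X]} (hP : P ≠ 0) {α : ℂ} :
    α ∈ expanding P ↔ aeval α P = 0 ∧ 1 < ‖α‖ := by
  unfold expanding
  rw [Finset.mem_filter, Multiset.mem_toFinset, mem_aroots]
  tauto

theorem conj_mem {P : ℤ[X]} (hP : P ≠ 0) {α : ℂ} (h : α ∈ expanding P) :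
    starRingEnd ℂ α ∈ expanding P := by
  rw [mem_expanding hP] at h ⊢
  refine ⟨?_, ?_⟩
  · have h1 := congrArg (starRingEnd ℂ) h.1
    rw [map_zero] at h1
    rw [← h1]
    have h2 : (starRingEnd ℂ : ℂ →+* ℂ) (aeval α P) = aeval (starRingEnd ℂ α) P := by
      rw [aeval_def, aeval_def, hom_eval₂]
      congr 1
      exact RingHom.ext_int _ _
    exact h2.symm
  · rw [RCLike.norm_conj]
    exact h.2

/-- the sums are real -/
theorem sum_im {P : ℤ[X]} (hP : P ≠ 0) {k : ℕ} {g : ℂ → ℂ[X]} (hg : IsTuple P k g) (n : ℕ) :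
    (sum P g n).im = 0 := by
  rw [← Complex.conj_eq_iff_im]
  unfold sum
  rw [map_sum]
  refine Finset.sum_nbij' (fun α => starRingEnd ℂ α) (fun α => starRingEnd ℂ α) ?_ ?_ ?_ ?_ ?_
  · intro α h; exact conj_mem hP h
  · intro α h; exact conj_mem hP h
  · intro α _; exact Complex.conj_conj α
  · intro α _; exact Complex.conj_conj α
  · intro α h
    have e := Polynomial.eval₂_hom (p := g α) (starRingEnd ℂ) (n : ℂ)
    rw [map_natCast] at e
    rw [(hg α h).2, map_mul, map_pow, eval_map, e]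

/-! ### The shift operator -/

/-- the shift -/
noncomputable def E : (ℕ → ℂ) →ₗ[ℂ] (ℕ → ℂ) := LinearMap.funLeft ℂ ℂ (fun n : ℕ => n + 1)

theorem E_apply (a : ℕ → ℂ) (n : ℕ) : E a n = a (n + 1) := rfl

theorem E_pow_apply (a : ℕ → ℂ) (j n : ℕ) : (E ^ j) a n = a (n + j) := by
  induction j generalizing n with
  | zero => simp
  | succ j ih =>
    rw [pow_succ', Module.End.mul_apply, E_apply, ih]
    congr 1
    ring

theorem aeval_E (R : ℂ[X]) (a : ℕ → ℂ) (n : ℕ) :
    (aeval E R) a n = ∑ j ∈ R.support, R.coeff j * a (n + j) := by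
  rw [aeval_eq_sum_range' (Nat.lt_succ_self R.natDegree)]
  rw [LinearMap.sum_apply, Finset.sum_apply]
  symm
  refine Finset.sum_subset_zero_on_sdiff ?_ ?_ ?_
  · intro j hj
    rw [Finset.mem_range, Nat.lt_succ_iff]
    exact le_natDegree_of_mem_supp j hj
  · intro j hj
    rw [Finset.mem_sdiff, notMem_support_iff] at hj
    rw [hj.2]
    simp
  · intro j _
    rw [LinearMap.smul_apply, Pi.smul_apply, E_pow_apply, smul_eq_mul]

theorem kill_one (α : ℂ) (f : ℂ → ℂ) :
    (aeval E (X - C α)) (fun n : ℕ => f n * α ^ n) =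
      α • fun n : ℕ => (fwdDiff 1 f) n * α ^ n := by
  funext n
  rw [map_sub, aeval_X, aeval_C, LinearMap.sub_apply, Pi.sub_apply, E_apply,
    Module.algebraMap_end_apply, Pi.smul_apply, Pi.smul_apply]
  simp only [fwdDiff, smul_eq_mul]
  push_cast
  ring

theorem kill_pow (α : ℂ) (f : ℂ → ℂ) (m : ℕ) :
    (aeval E ((X - C α) ^ m)) (fun n : ℕ => f n * α ^ n) =
      α ^ m • fun n : ℕ => ((fwdDiff 1)^[m] f) n * α ^ n := by
  induction m generalizing f with
  | zero => simp
  | succ m ih =>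
    rw [pow_succ, map_mul, Module.End.mul_apply, kill_one, map_smul, ih, smul_smul,
      Function.iterate_succ_apply]
    congr 1
    ring

theorem kill (α : ℂ) (g : ℂ[X]) (k : ℕ) (hg : g.natDegree ≤ k) :
    (aeval E ((X - C α) ^ (k + 1))) (fun n : ℕ => g.eval (n : ℂ) * α ^ n) = 0 := by
  have h := kill_pow α g.eval (k + 1)
  rw [Polynomial.fwdDiff_iter_eq_zero_of_degree_lt (Nat.lt_succ_of_le hg)] at h
  rw [h]
  funext n
  simp

theorem kill_dvd (R : ℂ[X]) (α : ℂ) (g : ℂ[X]) (k : ℕ) (hg : g.natDegree ≤ k)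
    (hR : (X - C α) ^ (k + 1) ∣ R) :
    (aeval E R) (fun n : ℕ => g.eval (n : ℂ) * α ^ n) = 0 := by
  obtain ⟨S, rfl⟩ := hR
  rw [mul_comm, map_mul, Module.End.mul_apply, kill α g k hg, map_zero]

theorem kill_sum {P : ℤ[X]} {k : ℕ} {g : ℂ → ℂ[X]} (hg : IsTuple P k g) (R : ℂ[X])
    (hR : ∀ α ∈ expanding P, (X - C α) ^ (k + 1) ∣ R) : (aeval E R) (sum P g) = 0 := by
  have e : sum P g = ∑ α ∈ expanding P, fun n : ℕ => (g α).eval (n : ℂ) * α ^ n := by
    funext n
    rw [Finset.sum_apply]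
    rfl
  rw [e, map_sum]
  exact Finset.sum_eq_zero fun α hα => kill_dvd R α (g α) k (hg α hα).1 (hR α hα)

/-- a bounded sequence killed by `R(E)` vanishes -/
def Inj (R : ℂ[X]) : Prop :=
  ∀ y : ℕ → ℂ, (∃ B : ℝ, ∀ n, ‖y n‖ ≤ B) → (aeval E R) y = 0 → y = 0

theorem bounded_aeval (R : ℂ[X]) (y : ℕ → ℂ) (hy : ∃ B : ℝ, ∀ n, ‖y n‖ ≤ B) :
    ∃ B : ℝ, ∀ n, ‖(aeval E R) y n‖ ≤ B := by
  obtain ⟨B, hB⟩ := hy
  refine ⟨∑ j ∈ R.support, ‖R.coeff j‖ * B, fun n => ?_⟩
  rw [aeval_E]
  refine (norm_sum_le _ _).trans (Finset.sum_le_sum fun j _ => ?_)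
  rw [norm_mul]
  exact mul_le_mul_of_nonneg_left (hB _) (norm_nonneg _)

theorem inj_mul {R S : ℂ[X]} (hR : Inj R) (hS : Inj S) : Inj (R * S) := by
  intro y hy h
  rw [map_mul, Module.End.mul_apply] at h
  exact hS y hy (hR _ (bounded_aeval S y hy) h)

theorem inj_one : Inj 1 := by
  intro y _ h
  simpa using h

theorem inj_linear {α : ℂ} (hα : 1 < ‖α‖) : Inj (X - C α) := by
  rintro y ⟨B, hB⟩ h
  have h1 : ∀ n, y (n + 1) = α * y n := by
    intro n
    have h2 := congrFun h n
    rw [map_sub, aeval_X, aeval_C, LinearMap.sub_apply, Pi.sub_apply, E_apply,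
      Module.algebraMap_end_apply, Pi.smul_apply, smul_eq_mul, Pi.zero_apply] at h2
    linear_combination h2
  funext m
  by_contra hm
  have hm0 : 0 < ‖y m‖ := norm_pos_iff.2 hm
  have h2 : ∀ j, ‖y (m + j)‖ = ‖α‖ ^ j * ‖y m‖ := by
    intro j
    induction j with
    | zero => simp
    | succ j ih =>
      rw [← add_assoc, h1, norm_mul, ih]
      ring
  obtain ⟨j, hj⟩ := pow_unbounded_of_one_lt (B / ‖y m‖) hα
  have h3 := hB (m + j)
  rw [h2] at h3
  rw [div_lt_iff₀ hm0] at hj
  linarith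

theorem inj_pow {R : ℂ[X]} (hR : Inj R) (m : ℕ) : Inj (R ^ m) := by
  induction m with
  | zero => rw [pow_zero]; exact inj_one
  | succ m ih => rw [pow_succ]; exact inj_mul ih hR

/-! ### Rigidity -/

theorem dvd_map {P : ℤ[X]} (hP : P ≠ 0) (k : ℕ) {α : ℂ} (hα : α ∈ expanding P) :
    (X - C α) ^ (k + 1) ∣ (P ^ (k + 1)).map (Int.castRingHom ℂ) := by
  rw [Polynomial.map_pow]
  apply pow_dvd_pow_of_dvd
  rw [dvd_iff_isRoot, IsRoot.def, eval_map]
  have h := ((mem_expanding hP).1 hα).1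
  rwa [aeval_def] at h

/-- the real sequence satisfies the recurrence -/
theorem recurrence {P : ℤ[X]} (hP : P ≠ 0) {k : ℕ} {g : ℂ → ℂ[X]} (hg : IsTuple P k g) (n : ℕ) :
    ∑ j ∈ (P ^ (k + 1)).support, ((P ^ (k + 1)).coeff j : ℝ) * seq P g (n + j) = 0 := by
  have h := congrFun (kill_sum hg _ fun α hα => dvd_map hP k hα) n
  rw [aeval_E] at h
  have hsupp : ((P ^ (k + 1)).map (Int.castRingHom ℂ)).support = (P ^ (k + 1)).support :=
    Polynomial.support_map_of_injective _ (RingHom.injective_int (Int.castRingHom ℂ))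
  rw [hsupp] at h
  have h2 := congrArg Complex.re h
  rw [Complex.re_sum] at h2
  rw [Pi.zero_apply, Complex.zero_re] at h2
  rw [← h2]
  refine Finset.sum_congr rfl fun j _ => ?_
  rw [coeff_map]
  have e : (Int.castRingHom ℂ) ((P ^ (k + 1)).coeff j) = (((P ^ (k + 1)).coeff j : ℝ) : ℂ) := by
    push_cast
    rfl
  rw [e, Complex.re_ofReal_mul]
  rfl

/-- two sequences at bounded distance (from some point on) agree from this point on -/
theorem eq_of_bounded {P : ℤ[X]} (hP : P ≠ 0) {k : ℕ} {g g' : ℂ → ℂ[X]} (hg : IsTuple P k g)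
    (hg' : IsTuple P k g') (n₀ : ℕ) (B : ℝ) (h : ∀ n, n₀ ≤ n → |seq P g n - seq P g' n| ≤ B)
    (n : ℕ) (hn : n₀ ≤ n) : seq P g n = seq P g' n := by
  classical
  set R : ℂ[X] := ∏ α ∈ expanding P, (X - C α) ^ (k + 1) with hR
  have hinj : Inj R := by
    rw [hR]
    refine Finset.prod_induction _ Inj (fun a b => inj_mul) inj_one fun α hα => ?_
    exact inj_pow (inj_linear ((mem_expanding hP).1 hα).2) _
  have hdvd : ∀ α ∈ expanding P, (X - C α) ^ (k + 1) ∣ R := fun α hα =>
    Finset.dvd_prod_of_mem (fun α => (X - C α) ^ (k + 1)) hα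
  have h0 : (aeval E R) ((E ^ n₀) (sum P g - sum P g')) = 0 := by
    rw [← Module.End.mul_apply]
    have : aeval E R * E ^ n₀ = E ^ n₀ * aeval E R := by
      have e : (E ^ n₀ : Module.End ℂ (ℕ → ℂ)) = aeval E (X ^ n₀ : ℂ[X]) := by
        rw [map_pow, aeval_X]
      rw [e, ← map_mul, ← map_mul, mul_comm]
    rw [this, Module.End.mul_apply, map_sub, kill_sum hg R hdvd, kill_sum hg' R hdvd, sub_zero,
      map_zero]
  have hre : ∀ m, sum P g m - sum P g' m = ((seq P g m - seq P g' m : ℝ) : ℂ) := by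
    intro m
    apply Complex.ext
    · rw [Complex.sub_re, Complex.ofReal_re]
      rfl
    · rw [Complex.sub_im, sum_im hP hg, sum_im hP hg', Complex.ofReal_im, sub_zero]
  have hb : ∃ B : ℝ, ∀ n, ‖((E ^ n₀) (sum P g - sum P g')) n‖ ≤ B := by
    refine ⟨B, fun m => ?_⟩
    rw [E_pow_apply, Pi.sub_apply, hre, Complex.norm_real]
    exact h _ (Nat.le_add_left _ _)
  have h1 := congrFun (hinj _ hb h0) (n - n₀)
  rw [E_pow_apply, Pi.sub_apply, hre, Pi.zero_apply, Nat.sub_add_cancel hn] at h1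
  have h2 : seq P g n - seq P g' n = 0 := by exact_mod_cast h1
  linarith

theorem len_pos {Q : ℤ[X]} (hQ : Q ≠ 0) : 0 < len Q := by
  refine Finset.sum_pos (fun j hj => ?_) (by rwa [Finset.nonempty_iff_ne_empty, Ne,
    Polynomial.support_eq_empty])
  rw [mem_support_iff] at hj
  exact abs_pos.2 (by exact_mod_cast hj)

theorem bdd (P : ℤ[X]) (g : ℂ → ℂ[X]) :
    IsBoundedUnder (· ≤ ·) atTop (fun n : ℕ => dist1 (seq P g n)) :=
  ⟨1 / 2, eventually_map.2 (Eventually.of_forall fun _ => abs_sub_round _)⟩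

/-- below `1 / L(P ^ (k + 1))` the nearest integers eventually satisfy the recurrence -/
theorem integer_recurrence {P : ℤ[X]} (hP : P ≠ 0) {k : ℕ} {g : ℂ → ℂ[X]} (hg : IsTuple P k g)
    (h : limsup (fun n : ℕ => dist1 (seq P g n)) atTop < 1 / len (P ^ (k + 1))) :
    ∃ n₀ : ℕ, ∀ n, n₀ ≤ n →
      ∑ j ∈ (P ^ (k + 1)).support, (P ^ (k + 1)).coeff j * round (seq P g (n + j)) = 0 := by
  obtain ⟨n₀, hn₀⟩ := eventually_atTop.1 (eventually_lt_of_limsup_lt h (bdd P g))
  refine ⟨n₀, fun n hn => ?_⟩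
  set Q := P ^ (k + 1) with hQ
  have hQ0 : Q ≠ 0 := pow_ne_zero _ hP
  have hL := len_pos hQ0
  have hrec := recurrence hP hg n
  rw [← hQ] at hrec
  have h1 : ((∑ j ∈ Q.support, Q.coeff j * round (seq P g (n + j)) : ℤ) : ℝ) =
      -∑ j ∈ Q.support, (Q.coeff j : ℝ) * (seq P g (n + j) - round (seq P g (n + j))) := by
    push_cast
    have h2 : ∑ j ∈ Q.support, (Q.coeff j : ℝ) * (seq P g (n + j) - round (seq P g (n + j))) =
        ∑ j ∈ Q.support, (Q.coeff j : ℝ) * seq P g (n + j) -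
          ∑ j ∈ Q.support, (Q.coeff j : ℝ) * (round (seq P g (n + j)) : ℝ) := by
      rw [← Finset.sum_sub_distrib]
      exact Finset.sum_congr rfl fun j _ => by ring
    rw [h2, hrec]
    ring
  have h3 : |((∑ j ∈ Q.support, Q.coeff j * round (seq P g (n + j)) : ℤ) : ℝ)| < 1 := by
    rw [h1, abs_neg]
    calc |∑ j ∈ Q.support, (Q.coeff j : ℝ) * (seq P g (n + j) - round (seq P g (n + j)))|
        ≤ ∑ j ∈ Q.support, |(Q.coeff j : ℝ) * (seq P g (n + j) - round (seq P g (n + j)))| :=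
          Finset.abs_sum_le_sum_abs _ _
      _ < ∑ j ∈ Q.support, |(Q.coeff j : ℝ)| * (1 / len Q) := by
          apply Finset.sum_lt_sum_of_nonempty
          · rwa [Finset.nonempty_iff_ne_empty, Ne, Polynomial.support_eq_empty]
          · intro j hj
            rw [abs_mul]
            rw [mem_support_iff] at hj
            exact mul_lt_mul_of_pos_left (hn₀ _ (by omega)) (abs_pos.2 (by exact_mod_cast hj))
      _ = 1 := by
          rw [← Finset.sum_mul]
          change len Q * (1 / len Q) = 1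
          field_simp
  have h4 : |∑ j ∈ Q.support, Q.coeff j * round (seq P g (n + j))| < 1 := by exact_mod_cast h3
  exact Int.abs_lt_one_iff.1 h4

/-- an integer sequence satisfying the recurrence is determined by its first values -/
theorem determined {Q : ℤ[X]} (hQ : Q ≠ 0) (u w : ℕ → ℤ) (n₀ : ℕ)
    (hu : ∀ n, n₀ ≤ n → ∑ j ∈ Q.support, Q.coeff j * u (n + j) = 0)
    (hw : ∀ n, n₀ ≤ n → ∑ j ∈ Q.support, Q.coeff j * w (n + j) = 0)
    (h0 : ∀ i, i < Q.natDegree → u (n₀ + i) = w (n₀ + i)) (n : ℕ) (hn : n₀ ≤ n) : u n = w n := by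
  obtain ⟨m, rfl⟩ := Nat.exists_eq_add_of_le hn
  clear hn
  induction m using Nat.strong_induction_on with
  | _ m ih =>
    rcases lt_or_ge m Q.natDegree with h | h
    · exact h0 m h
    · obtain ⟨i, rfl⟩ := Nat.exists_eq_add_of_le h
      have h1 := hu (n₀ + i) (by omega)
      have h2 := hw (n₀ + i) (by omega)
      have hmem : Q.natDegree ∈ Q.support := natDegree_mem_support_of_nonzero hQ
      rw [← Finset.add_sum_erase _ _ hmem] at h1 h2
      have h3 : ∑ j ∈ Q.support.erase Q.natDegree, Q.coeff j * u (n₀ + i + j) =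
          ∑ j ∈ Q.support.erase Q.natDegree, Q.coeff j * w (n₀ + i + j) := by
        refine Finset.sum_congr rfl fun j hj => ?_
        have hj1 := Finset.mem_erase.1 hj
        have hj2 : j < Q.natDegree := lt_of_le_of_ne (le_natDegree_of_mem_supp j hj1.2) hj1.1
        have h4 := ih (i + j) (by omega)
        rw [← add_assoc] at h4
        rw [h4]
      rw [h3] at h1
      have h5 : Q.coeff Q.natDegree * u (n₀ + i + Q.natDegree) =
          Q.coeff Q.natDegree * w (n₀ + i + Q.natDegree) := by linarith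
      have h6 : Q.coeff Q.natDegree ≠ 0 := by
        rw [coeff_natDegree]
        exact leadingCoeff_ne_zero.2 hQ
      have h7 := mul_left_cancel₀ h6 h5
      have e : n₀ + (Q.natDegree + i) = n₀ + i + Q.natDegree := by omega
      rw [e]
      exact h7

/-- the spectrum is countable below `1 / L(P ^ (k + 1))` -/
theorem countable_below (P : ℤ[X]) (hP : P ≠ 0) (k : ℕ) :
    (lagrange P k ∩ Set.Iio (1 / len (P ^ (k + 1)))).Countable := by
  classical
  set Q := P ^ (k + 1) with hQ
  have hQ0 : Q ≠ 0 := pow_ne_zero _ hP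
  -- the tuples below the threshold
  let S : Type := {g : ℂ → ℂ[X] // IsTuple P k g ∧
    limsup (fun n : ℕ => dist1 (seq P g n)) atTop < 1 / len Q}
  have hrec : ∀ s : S, ∃ n₀ : ℕ, ∀ n, n₀ ≤ n →
      ∑ j ∈ Q.support, Q.coeff j * round (seq P s.1 (n + j)) = 0 := fun s =>
    integer_recurrence hP s.2.1 s.2.2
  choose N hN using hrec
  let code : S → ℕ × (Fin Q.natDegree → ℤ) := fun s =>
    (N s, fun i => round (seq P s.1 (N s + i)))
  let val : S → ℝ := fun s => limsup (fun n : ℕ => dist1 (seq P s.1 n)) atTop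
  have hfac : ∀ s t : S, code s = code t → val s = val t := by
    intro s t hst
    have h1 : N s = N t := congrArg Prod.fst hst
    have h2 : ∀ i : Fin Q.natDegree, round (seq P s.1 (N s + i)) = round (seq P t.1 (N t + i)) :=
      fun i => congrFun (congrArg Prod.snd hst) i
    have h3 : ∀ n, N s ≤ n → round (seq P s.1 n) = round (seq P t.1 n) := by
      refine determined hQ0 (fun n => round (seq P s.1 n)) (fun n => round (seq P t.1 n)) (N s)
        (hN s) ?_ ?_
      · rw [h1]; exact hN t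
      · intro i hi
        have := h2 ⟨i, hi⟩
        rw [← h1] at this
        exact this
    have h4 : ∀ n, N s ≤ n → |seq P s.1 n - seq P t.1 n| ≤ 1 := by
      intro n hn
      have e : seq P s.1 n - seq P t.1 n = (seq P s.1 n - round (seq P s.1 n)) -
          (seq P t.1 n - round (seq P t.1 n)) := by
        rw [h3 n hn]
        ring
      rw [e]
      refine (abs_sub _ _).trans ?_
      have a1 := abs_sub_round (seq P s.1 n)
      have a2 := abs_sub_round (seq P t.1 n)
      linarith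
    have h5 := eq_of_bounded hP s.2.1 t.2.1 (N s) 1 h4
    refine limsup_congr ?_
    filter_upwards [eventually_ge_atTop (N s)] with n hn
    rw [h5 n hn]
  have hcount : (Set.range val).Countable := by
    have : Set.range val ⊆ Set.range (fun c : ℕ × (Fin Q.natDegree → ℤ) =>
        if h : ∃ s, code s = c then val h.choose else 0) := by
      rintro _ ⟨s, rfl⟩
      refine ⟨code s, ?_⟩
      have h : ∃ t, code t = code s := ⟨s, rfl⟩
      simp only [dif_pos h]
      exact hfac _ _ h.choose_spec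
    exact (Set.countable_range _).mono this
  refine hcount.mono ?_
  rintro v ⟨⟨g, hg, rfl⟩, hv⟩
  exact ⟨⟨g, hg, hv⟩, rfl⟩

/-- the part of an interval `[0, 1/2]` below a positive bound is uncountable -/
theorem not_countable (δ : ℝ) (hδ : 0 < δ) : ¬ (Set.Icc (0 : ℝ) (1 / 2) ∩ Set.Iio δ).Countable := by
  intro h
  have h1 : Set.Ioo (0 : ℝ) (min δ (1 / 2)) ⊆ Set.Icc (0 : ℝ) (1 / 2) ∩ Set.Iio δ := by
    rintro x ⟨hx1, hx2⟩
    exact ⟨⟨hx1.le, (hx2.trans_le (min_le_right _ _)).le⟩, hx2.trans_le (min_le_left _ _)⟩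
  have h2 := h.mono h1
  have h3 : (0 : ℝ) < min δ (1 / 2) := lt_min hδ (by norm_num)
  have h4 := Cardinal.mk_Ioo_real h3
  have h5 := h2.le_aleph0
  rw [h4] at h5
  exact absurd h5 (not_le.2 Cardinal.aleph0_lt_continuum)

theorem ne_interval (P : ℤ[X]) (hP : P ≠ 0) (k : ℕ) : lagrange P k ≠ Set.Icc 0 (1 / 2) := by
  intro h
  have h1 := countable_below P hP k
  rw [h] at h1
  exact not_countable _ (one_div_pos.2 (len_pos (pow_ne_zero _ hP))) h1

theorem subset_interval (P : ℤ[X]) (k : ℕ) : lagrange P k ⊆ Set.Icc 0 (1 / 2) := by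
  rintro _ ⟨g, _, rfl⟩
  constructor
  · refine le_limsup_of_frequently_le ?_ (bdd P g)
    exact Frequently.of_forall fun _ => abs_nonneg _
  · refine limsup_le_of_le ?_ (Eventually.of_forall fun _ => abs_sub_round _)
    exact isCoboundedUnder_le_of_eventually_le (x := 0) atTop
      (Eventually.of_forall fun _ => abs_nonneg _)

/-! ### A non-hyperbolic polynomial -/

/-- `X⁴ - 2 X³ - 2 X + 1` -/
noncomputable def salem : ℤ[X] := X ^ 4 - 2 * X ^ 3 - 2 * X + 1

theorem salem_monic : salem.Monic := by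
  unfold salem
  monicity!

theorem salem_natDegree : salem.natDegree = 4 := by
  unfold salem
  compute_degree!

theorem taylor_salem : taylor 1 salem = X ^ 4 + 2 * X ^ 3 - 4 * X - 2 := by
  unfold salem
  simp only [taylor_apply, C_1, add_comp, sub_comp, mul_comp, pow_comp, X_comp, one_comp,
    ofNat_comp]
  ring

theorem salem_irreducible : Irreducible salem := by
  rw [← MulEquiv.irreducible_iff (taylorEquiv (1 : ℤ))]
  have e : (taylorEquiv (1 : ℤ)) salem = X ^ 4 + 2 * X ^ 3 - 4 * X - 2 := taylor_salem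
  rw [e]
  set q : ℤ[X] := X ^ 4 + 2 * X ^ 3 - 4 * X - 2 with hq
  have hdeg : q.natDegree = 4 := by rw [hq]; compute_degree!
  have hmonic : q.Monic := by rw [hq]; monicity!
  have hprime : (Ideal.span {(2 : ℤ)}).IsPrime := by
    rw [Ideal.span_singleton_prime (by norm_num)]
    exact Int.prime_two
  have hE : q.IsEisensteinAt (Ideal.span {(2 : ℤ)}) := by
    refine ⟨?_, ?_, ?_⟩
    · rw [hmonic.leadingCoeff]
      intro h
      rw [Ideal.mem_span_singleton] at h
      norm_num at h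
    · intro n hn
      rw [hdeg] at hn
      rw [Ideal.mem_span_singleton]
      have c0 : q.coeff 0 = -2 := by rw [hq]; simp
      have c1 : q.coeff 1 = -4 := by
        rw [hq]; simp [coeff_X_pow, coeff_X, coeff_ofNat_succ, coeff_ofNat_mul]
      have c2 : q.coeff 2 = 0 := by
        rw [hq]; simp [coeff_X_pow, coeff_X, coeff_ofNat_succ, coeff_ofNat_mul]
      have c3 : q.coeff 3 = 2 := by
        rw [hq]; simp [coeff_X_pow, coeff_X, coeff_ofNat_succ, coeff_ofNat_mul]
      interval_cases n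
      · rw [c0]; norm_num
      · rw [c1]; norm_num
      · rw [c2]; norm_num
      · rw [c3]
    · have hc : q.coeff 0 = -2 := by
        rw [hq]
        simp
      rw [hc, Ideal.span_singleton_pow, Ideal.mem_span_singleton]
      norm_num
  exact hE.irreducible hprime hmonic.isPrimitive (by rw [hdeg]; norm_num)

theorem salem_coeff_zero : salem.coeff 0 ≠ 0 := by
  unfold salem
  simp

theorem salem_expanding : ∃ z : ℂ, aeval z salem = 0 ∧ 1 < ‖z‖ := by
  have hc : ContinuousOn (fun x : ℝ => x ^ 4 - 2 * x ^ 3 - 2 * x + 1) (Set.Icc 2 3) := by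
    fun_prop
  have h := intermediate_value_Icc (by norm_num : (2 : ℝ) ≤ 3) hc
  obtain ⟨x, hx, hx0⟩ := h (show (0 : ℝ) ∈ Set.Icc _ _ by constructor <;> norm_num)
  refine ⟨(x : ℂ), ?_, ?_⟩
  · have h1 : ((x ^ 4 - 2 * x ^ 3 - 2 * x + 1 : ℝ) : ℂ) = 0 := by
      simp only at hx0
      rw [hx0]
      rfl
    unfold salem
    push_cast at h1
    simp only [map_add, map_sub, map_mul, map_pow, aeval_X, map_one, map_ofNat]
    exact h1
  · rw [Complex.norm_real, Real.norm_eq_abs, abs_of_pos (by linarith [hx.1])]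
    linarith [hx.1]

theorem salem_unit : ∃ z : ℂ, aeval z salem = 0 ∧ ‖z‖ = 1 := by
  -- `z² - t z + 1 = 0` with `t = 1 - √3`
  set r : ℝ := Real.sqrt 3 with hr
  have hr2 : r ^ 2 = 3 := Real.sq_sqrt (by norm_num)
  have hr0 : 0 ≤ r := Real.sqrt_nonneg 3
  have hr3 : r < 2 := by nlinarith
  set t : ℝ := 1 - r with ht
  have ht2 : t ^ 2 - 2 * t - 2 = 0 := by rw [ht]; linear_combination hr2
  have ht4 : 0 ≤ 4 - t ^ 2 := by nlinarith
  set s : ℝ := Real.sqrt (4 - t ^ 2) with hs
  have hs2 : s ^ 2 = 4 - t ^ 2 := Real.sq_sqrt ht4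
  refine ⟨⟨t / 2, s / 2⟩, ?_, ?_⟩
  · set z : ℂ := ⟨t / 2, s / 2⟩ with hz
    have hz1 : z = (t : ℂ) / 2 + (s : ℂ) / 2 * Complex.I := by
      apply Complex.ext <;> simp [hz]
    have hs2' : (s : ℂ) ^ 2 = 4 - (t : ℂ) ^ 2 := by exact_mod_cast congrArg (fun x : ℝ => (x : ℂ)) hs2
    have ht2' : (t : ℂ) ^ 2 - 2 * t - 2 = 0 := by
      exact_mod_cast congrArg (fun x : ℝ => (x : ℂ)) ht2
    have hq : z ^ 2 - t * z + 1 = 0 := by
      rw [hz1]
      linear_combination (-(1 / 4 : ℂ)) * hs2' + ((s : ℂ) ^ 2 / 4) * Complex.I_sq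
    unfold salem
    simp only [map_add, map_sub, map_mul, map_pow, aeval_X, map_one, map_ofNat]
    linear_combination (z ^ 2 + (t - 2) * z + 1) * hq + z ^ 2 * ht2'
  · rw [Complex.norm_eq_sqrt_sq_add_sq]
    have : (t / 2) ^ 2 + (s / 2) ^ 2 = 1 := by
      linear_combination (1 / 4 : ℝ) * hs2
    rw [this, Real.sqrt_one]

/-- **The spectrum is never the whole interval `[0, 1/2]`.**
(1) Let `P` be a monic irreducible polynomial with integer coefficients and a root of modulus `> 1`,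
hyperbolic or not, with `P(0) ≠ 0` (these hypotheses are only used through `P ≠ 0`), and let `k ≥ 0`.
Then only countably many points of the spectrum of order `k` are below `1 / L(P ^ (k + 1))`. So the
spectrum is not `[0, 1/2]`, and if it is dense in `[0, 1/2]` (which is known if `P` has a root of
modulus `1`), then it is not closed.
(2) The class of non-hyperbolic `P` is not empty. -/
theorem result :
    (∀ P : ℤ[X], P.Monic → Irreducible P → P.coeff 0 ≠ 0 → (∃ z : ℂ, aeval z P = 0 ∧ 1 < ‖z‖) →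
      ∀ k : ℕ, (lagrange P k ∩ Set.Iio (1 / len (P ^ (k + 1)))).Countable ∧
        lagrange P k ≠ Set.Icc 0 (1 / 2) ∧
        (Set.Icc 0 (1 / 2) ⊆ closure (lagrange P k) → ¬ IsClosed (lagrange P k))) ∧
    ∃ P : ℤ[X], P.Monic ∧ Irreducible P ∧ P.coeff 0 ≠ 0 ∧ (∃ z : ℂ, aeval z P = 0 ∧ 1 < ‖z‖) ∧
      ∃ z : ℂ, aeval z P = 0 ∧ ‖z‖ = 1 := by
  refine ⟨fun P _ hirr _ _ k => ⟨countable_below P hirr.ne_zero k, ne_interval P hirr.ne_zero k,
    fun hd hc => ?_⟩, salem, salem_monic, salem_irreducible, salem_coeff_zero, salem_expanding,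
    salem_unit⟩
  apply ne_interval P hirr.ne_zero k
  apply Set.Subset.antisymm (subset_interval P k)
  rwa [hc.closure_eq] at hd

end Pool.Agent.Results.MP_6c75e4_nt.NeverFullInterval
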